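import Pool.Agent.Helper1.FF2.Goals2
import Pool.Agent.Helper75.FF.StmtTri

/-!
# Lemma (G) (MP_7cb822_co)
-/

namespace Pool.Agent.Helper54.FF

open Finset
open Pool.Agent.Helper34.FF hiding StmtG
open Pool.Agent.Helper1.FF2
open scoped symmDiff Classical

theorem lip_up {f : ℤ → ℕ} (h1 : ∀ i, f i ≤ f (i + 1) + 1) (i : ℤ) (k : ℕ) :
    f i ≤ f (i + k) + k := by
  induction k with
  | zero => simp
  | succ k ih =>
    have := h1 (i + k)
    have e : i + ((k + 1 : ℕ) : ℤ) = i + k + 1 := by push_cast; ring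
    rw [e]
    omega

theorem lip_down {f : ℤ → ℕ} (h2 : ∀ i, f (i + 1) ≤ f i + 1) (i : ℤ) (k : ℕ) :
    f (i + k) ≤ f i + k := by
  induction k with
  | zero => simp
  | succ k ih =>
    have := h2 (i + k)
    have e : i + ((k + 1 : ℕ) : ℤ) = i + k + 1 := by push_cast; ring
    rw [e]
    omega

theorem per_mul {α : Type} {l : ℕ} {g : ℤ → α} (h : ∀ i, g (i + l) = g i) (q i : ℤ) :
    g (i + l * q) = g i := by
  induction q using Int.induction_on generalizing i with
  | zero => simp
  | succ q ih =>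
    have e : i + (l : ℤ) * ((q : ℤ) + 1) = (i + l * q) + l := by ring
    rw [e, h, ih]
  | pred q ih =>
    have e : i + (l : ℤ) * (-(q : ℤ) - 1) + l = (i + l * (-q)) := by ring
    rw [← h, e, ih]

theorem pf_StmtG : Pool.Agent.Helper1.FF2.StmtG := by
  intro V F _ _ T hT e l E c u f hE hu fper h1 h2 hH hBad he i₀
  by_contra hcon
  push Not at hcon
  obtain ⟨-, tri2, tri3, -, tri5⟩ := Pool.Agent.Helper75.FF.pf_StmtTri V F T hT
  have hmem : ∀ v, v ∈ T.Vbd E → ∃ i, v = c i := by
    intro v hv
    simp only [Tri.Vbd, mem_filter, mem_univ, true_and] at hv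
    obtain ⟨g, hg, hvg⟩ := hv
    obtain ⟨i, rfl⟩ := (hE.bd g).1 hg
    rcases Sym2.mem_iff.1 hvg with h | h
    · exact ⟨_, h⟩
    · exact ⟨_, h⟩
  have hl : 3 ≤ l := hE.three
  have hgood : Good T.G u (T.Vbd E) := by
    refine ⟨?_, ?_⟩
    · have := (tri2 Eᶜ u hu).1
      rwa [tri3] at this
    · intro t ht
      have hsub : ((T.Vbd E).filter fun x => Hits T.G (T.Vbd E) u t x) ⊆
          (Icc ((f (i₀ + 1) : ℤ) - t) (t + l - 1 - f i₀)).image fun k => c (i₀ + 1 + k) := by
        intro x hx
        rw [mem_filter] at hx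
        obtain ⟨hxb, hxh⟩ := hx
        obtain ⟨j, rfl⟩ := hmem x hxb
        rw [mem_image]
        have hlpos : (0 : ℤ) < l := by omega
        refine ⟨(j - i₀ - 1) % l, ?_, ?_⟩
        · have hk0 := Int.emod_nonneg (j - i₀ - 1) hlpos.ne'
          have hkl := Int.emod_lt_of_pos (j - i₀ - 1) hlpos
          obtain ⟨k, hk⟩ : ∃ k : ℕ, (j - i₀ - 1) % l = k := ⟨_, (Int.toNat_of_nonneg hk0).symm⟩
          have hj : i₀ + 1 + (k : ℤ) + l * ((j - i₀ - 1) / l) = j := by
            rw [← hk]
            have := Int.emod_add_mul_ediv (j - i₀ - 1) l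
            linarith
          have hft : f (i₀ + 1 + k) ≤ t := by
            have := hH j t hxh
            rw [← hj, per_mul fper] at this
            exact this
          have a1 := lip_up h1 (i₀ + 1) k
          have hkl' : k + 1 ≤ l := by omega
          have a2 := lip_down h2 (i₀ + 1 + k) (l - 1 - k)
          have e2 : i₀ + 1 + (k : ℤ) + ((l - 1 - k : ℕ) : ℤ) = i₀ + l := by
            have : ((l - 1 - k : ℕ) : ℤ) = l - 1 - k := by omega
            rw [this]; ring
          rw [e2, fper] at a2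
          rw [hk, mem_Icc]
          constructor <;> omega
        · have hj : i₀ + 1 + (j - i₀ - 1) % l + l * ((j - i₀ - 1) / l) = j := by
            have := Int.emod_add_mul_ediv (j - i₀ - 1) l
            linarith
          have := per_mul hE.per ((j - i₀ - 1) / l) (i₀ + 1 + (j - i₀ - 1) % l)
          rw [hj] at this
          exact this.symm
      refine (card_le_card hsub).trans (card_image_le.trans ?_)
      rw [Int.card_Icc]
      omega
  refine absurd (hBad _ hgood (Vcl T E) ?_) (by omega)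
  intro v hv k a ha
  by_contra hno
  push Not at hno
  have hvin : v ∈ T.Vin Eᶜ := tri5 Eᶜ k a u v ha (by rw [tri3]; exact hno) hu
  simp only [Vcl, mem_filter, mem_univ, true_and] at hv
  obtain ⟨g, hg, hvg⟩ := hv
  simp only [Tri.Vin, mem_filter, mem_univ, true_and] at hvin
  exact (mem_compl.1 (hvin g hvg)) hg

end Pool.Agent.Helper54.FF
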