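import Pool.Agent.Helper34.FF.G1
import Pool.Agent.Helper34.FF.Goals2

/-!
# Filling lemma (MP_7cb822_co)
-/

namespace Pool.Agent.Helper54.FF

open Finset
open Pool.Agent.Helper34.FF
open scoped symmDiff Classical

theorem dcr {F : Type} [Fintype F] (A B : Finset F) : Disjoint A Bᶜ ↔ A ⊆ B := by
  rw [disjoint_left]
  simp only [mem_compl, not_not]
  exact ⟨fun h x hx => h hx, fun h x hx => h hx⟩

theorem pf_StmtFilling (hCut : StmtCut) (hMass : StmtMass) : StmtFilling := by
  intro V F _ _ T hT L e S X hBad hS hIN hX hXS he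
  obtain ⟨hvb, hmass⟩ := hMass V F T hT
  obtain ⟨tri1, tri2, tri3, -, -⟩ := pTri V F T hT
  set N := Fintype.card F with hN
  have hXc : X ∈ univ.filter (fun Y : Finset F => X ⊆ Y ∧ Disjoint Y Sᶜ) := by
    simp only [mem_filter, mem_univ, true_and]
    exact ⟨Subset.rfl, (dcr X S).2 hXS⟩
  obtain ⟨E, hE, hmin⟩ := exists_min_image (univ.filter (fun Y : Finset F => X ⊆ Y ∧ Disjoint Y Sᶜ))
    (fun Y => T.len Y * (N + 1) + Yᶜ.card) ⟨X, hXc⟩
  have hcardle : ∀ Y : Finset F, Y.card ≤ N := fun Y => card_le_univ Y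
  simp only [mem_filter, mem_univ, true_and] at hE hXc
  have hmin' : ∀ Y : Finset F, X ⊆ Y → Disjoint Y Sᶜ → T.len E ≤ T.len Y := by
    intro Y h1 h2
    have h := hmin Y (by simp only [mem_filter, mem_univ, true_and]; exact ⟨h1, h2⟩)
    by_contra hc
    push Not at hc
    have h3 := hcardle Yᶜ
    nlinarith
  have hmax : ∀ Y : Finset F, X ⊆ Y → Disjoint Y Sᶜ → T.len Y = T.len E → Y.card ≤ E.card := by
    intro Y h1 h2 h3
    have h := hmin Y (by simp only [mem_filter, mem_univ, true_and]; exact ⟨h1, h2⟩)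
    rw [h3, card_compl, card_compl] at h
    have h4 := hcardle Y
    have h5 := hcardle E
    omega
  have hEB : T.Bond E := pMinCut V F T hT X Sᶜ E hX.1 hS.2 hE.1 hE.2 hmin'
  have hES : E ⊆ S := (dcr E S).1 hE.2
  have hVin : ∀ A B : Finset F, A ⊆ B → T.Vin A ⊆ T.Vin B := by
    intro A B hAB v hv
    simp only [Tri.Vin, mem_filter, mem_univ, true_and] at hv ⊢
    exact fun f hf => hAB (hv f hf)
  refine ⟨E, hEB, hE.1, hES, hmin' X hXc.1 hXc.2, ?_⟩
  have claim : ∀ u ∈ L, u ∈ T.Vin S → u ∈ T.Vin E ∨ u ∈ T.Vbd E := by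
    intro u huL huS
    rcases tri1 E u with h | h | h
    · exact Or.inl h
    · exact Or.inr h
    · exfalso
      have hBc : T.Bond Sᶜ := by
        refine ⟨hS.2, ?_⟩
        rw [compl_compl]
        exact hS.1
      obtain ⟨Y, hEY, hYD, hlen, hub⟩ := hCut V F T hT E Sᶜ u e hEB hBc hIN hE.2 h
        (by rw [compl_compl]; exact huS) (hBad u huL).1
        (he.trans (card_le_card (hVin X E hE.1)))
        (fun Y h1 h2 => hmin' Y (hE.1.trans h1) h2)
      have hne : E ≠ Y := by
        rintro rfl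
        have := (tri2 Eᶜ u h).1
        rw [tri3] at this
        exact this hub
      have hlt : E.card < Y.card := card_lt_card (ssubset_of_subset_of_ne hEY hne)
      have := hmax Y (hE.1.trans hEY) hYD hlen
      omega
  have hsub : L ∩ T.Vin S ⊆ (L ∩ T.Vin E) ∪ T.Vbd E := by
    intro u hu
    rw [mem_inter] at hu
    rcases claim u hu.1 hu.2 with h | h
    · exact mem_union_left _ (mem_inter.2 ⟨hu.1, h⟩)
    · exact mem_union_right _ h
  calc T.m L S = (L ∩ T.Vin S).card := rfl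
    _ ≤ ((L ∩ T.Vin E) ∪ T.Vbd E).card := card_le_card hsub
    _ ≤ (L ∩ T.Vin E).card + (T.Vbd E).card := card_union_le _ _
    _ ≤ T.m L E + T.len E := Nat.add_le_add_left (hvb E) _

end Pool.Agent.Helper54.FF
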